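import Pool.Agent.W317.DR.Stm

/-!
DR-AL, DR-TYPE: alignment of two copies, types of edges in one frame, similar gadget edges,
intersections and coverings by core edges.
-/

set_option autoImplicit false

namespace Pool.Agent.W390.DR

open Pool.Agent.W317.DR Finset

section Basic

variable {I : Type} [Fintype I] [DecidableEq I] {p : Par I} (c : RC p)

theorem mem_core {j : I} {v : ℕ} :
    v ∈ c.core j ↔ v ∈ c.F ∨ v ∈ c.T j ∨ ∃ l ∈ p.N j, v ∈ c.X l := by
  simp [RC.core]

theorem X_uniq {i j : I} {v : ℕ} (hi : v ∈ c.X i) (hj : v ∈ c.X j) : i = j := by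
  by_contra h
  exact disjoint_left.mp (c.XX i j h) hi hj

theorem notF_of_X {i : I} {v : ℕ} (h : v ∈ c.X i) : v ∉ c.F := fun hF =>
  disjoint_left.mp (c.FX i) hF h

theorem mem_core_X {i j : I} {v : ℕ} (h : v ∈ c.X i) :
    v ∈ c.core j ↔ (i = j ∧ v ∈ c.T i) ∨ i ∈ p.N j := by
  rw [mem_core]
  constructor
  · rintro (h1 | h1 | ⟨l, hl, h1⟩)
    · exact absurd h1 (notF_of_X c h)
    · have := X_uniq c h (c.TX j h1)
      subst this
      exact Or.inl ⟨rfl, h1⟩
    · have := X_uniq c h h1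
      subst this
      exact Or.inr hl
  · rintro (⟨rfl, h1⟩ | h1)
    · exact Or.inr (Or.inl h1)
    · exact Or.inr (Or.inr ⟨i, h1, h⟩)

theorem mem_core_of_F {j : I} {v : ℕ} (h : v ∈ c.F) : v ∈ c.core j :=
  (mem_core c).mpr (Or.inl h)

theorem X_nonempty (i : I) : (c.X i).Nonempty := by
  rw [← card_pos, c.cX]
  exact lt_of_le_of_lt (Nat.zero_le _) (p.x_hh i)

theorem F_nonempty : c.F.Nonempty := by
  rw [← card_pos, c.cF]
  exact lt_of_le_of_lt (Nat.zero_le _) p.nF_gt

theorem exists_far (i j : I) (h : i ≠ j) : ∃ l, l ∈ p.N i ∧ l ∉ p.N j ∧ l ≠ j := by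
  have h1 := p.N_far i j h
  have h2 : 0 < ((p.N i \ p.N j).erase j).card := by
    have := pred_card_le_card_erase (s := p.N i \ p.N j) (a := j)
    omega
  obtain ⟨l, hl⟩ := card_pos.mp h2
  rw [mem_erase, mem_sdiff] at hl
  exact ⟨l, hl.2.1, hl.2.2, hl.1⟩

/-- core edges of copies with the same frame have the same index if they are equal -/
theorem core_eq_index {c c' : RC p} (h : c.SameFr c') {i j : I} (he : c.core i = c'.core j) :
    i = j := by
  by_contra hij
  obtain ⟨l, h1, h2, h3⟩ := exists_far (p := p) i j hij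
  obtain ⟨v, hv⟩ := X_nonempty c l
  have hv' : v ∈ c'.X l := by rw [← h.2]; exact hv
  have h4 : v ∈ c.core i := (mem_core_X c hv).mpr (Or.inr h1)
  rw [he, mem_core_X c' hv'] at h4
  rcases h4 with ⟨h5, -⟩ | h5
  · exact h3 h5
  · exact h2 h5

theorem core_inj : Function.Injective c.core := fun _ _ h =>
  core_eq_index (c := c) (c' := c) ⟨rfl, rfl⟩ h

theorem card_coreS : c.coreS.card = Fintype.card I := by
  rw [RC.coreS, card_image_of_injective _ (core_inj c), card_univ]

theorem mem_coreS {e : Finset ℕ} : e ∈ c.coreS ↔ ∃ j, c.core j = e := by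
  simp [RC.coreS]

theorem core_mem_coreS (j : I) : c.core j ∈ c.coreS := (mem_coreS c).mpr ⟨j, rfl⟩

/-- few indices are missing -/
theorem card_filter_core {E : Finset (Finset ℕ)} {m : ℕ} (hE : E ⊆ c.coreS)
    (hm : Fintype.card I ≤ E.card + m) (Z : Finset I) :
    Z.card ≤ (Z.filter (fun j => c.core j ∈ E)).card + m := by
  have h1 : E ⊆ (univ.filter (fun j => c.core j ∈ E)).image c.core := by
    intro e he
    obtain ⟨j, hj⟩ := (mem_coreS c).mp (hE he)
    exact mem_image.mpr ⟨j, mem_filter.mpr ⟨mem_univ _, hj ▸ he⟩, hj⟩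
  have h2 : E.card ≤ (univ.filter (fun j => c.core j ∈ E)).card :=
    (card_le_card h1).trans card_image_le
  have h3 : (Z.filter (fun j => ¬ c.core j ∈ E)).card ≤
      (univ.filter (fun j => ¬ c.core j ∈ E)).card :=
    card_le_card (filter_subset_filter _ (subset_univ _))
  have h4 := card_filter_add_card_filter_not (s := Z) (fun j => c.core j ∈ E)
  have h5 := card_filter_add_card_filter_not (s := (univ : Finset I)) (fun j => c.core j ∈ E)
  rw [card_univ] at h5
  omega

/-- a block meets few core edges -/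
theorem trace_subset {E : Finset (Finset ℕ)} (hE : E ⊆ c.coreS) {i : I} {v : ℕ}
    (hv : v ∈ c.X i) :
    E.filter (fun e => v ∈ e) ⊆ (insert i (p.N i)).image c.core := by
  intro e he
  rw [mem_filter] at he
  obtain ⟨j, rfl⟩ := (mem_coreS c).mp (hE he.1)
  rw [mem_image]
  refine ⟨j, ?_, rfl⟩
  rw [mem_insert]
  rcases (mem_core_X c hv).mp he.2 with ⟨h, -⟩ | h
  · exact Or.inl h.symm
  · exact Or.inr (p.N_symm _ _ h)

theorem trace_card {E : Finset (Finset ℕ)} (hE : E ⊆ c.coreS) {i : I} {v : ℕ}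
    (hv : v ∈ c.X i) : (E.filter (fun e => v ∈ e)).card ≤ p.D + 1 := by
  refine (card_le_card (trace_subset c hE hv)).trans (card_image_le.trans ?_)
  refine (card_insert_le _ _).trans ?_
  rw [p.N_card]

theorem trace_mem {E : Finset (Finset ℕ)} {i l : I} {v : ℕ} (hv : v ∈ c.X i)
    (hl : l ∈ p.N i) (hE : c.core l ∈ E) : c.core l ∈ E.filter (fun e => v ∈ e) :=
  mem_filter.mpr ⟨hE, (mem_core_X c hv).mpr (Or.inr (p.N_symm _ _ hl))⟩

theorem mem_X_of_core {j : I} {v : ℕ} (hv : v ∈ c.core j) (hF : v ∉ c.F) :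
    ∃ i, v ∈ c.X i := by
  rcases (mem_core c).mp hv with h | h | ⟨l, -, h⟩
  · exact absurd h hF
  · exact ⟨j, c.TX j h⟩
  · exact ⟨l, h⟩

/-- a vertex of many core edges is in the kernel -/
theorem mem_F_of_all {E : Finset (Finset ℕ)} (hE : E ⊆ c.coreS) (hc : p.D + 2 ≤ E.card) {v : ℕ}
    (hv : ∀ e ∈ E, v ∈ e) : v ∈ c.F := by
  by_contra hF
  obtain ⟨e, he⟩ : E.Nonempty := card_pos.mp (by omega)
  obtain ⟨j, rfl⟩ := (mem_coreS c).mp (hE he)
  obtain ⟨i, hi⟩ := mem_X_of_core c (hv _ he) hF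
  have h1 := trace_card c hE hi
  have h2 : E.filter (fun e => v ∈ e) = E := filter_true_of_mem hv
  rw [h2] at h1
  omega

theorem mem_all_of_F {E : Finset (Finset ℕ)} (hE : E ⊆ c.coreS) {v : ℕ} (hv : v ∈ c.F) :
    ∀ e ∈ E, v ∈ e := by
  intro e he
  obtain ⟨j, rfl⟩ := (mem_coreS c).mp (hE he)
  exact mem_core_of_F c hv

end Basic

section Align

variable {I : Type} [Fintype I] [DecidableEq I] {p : Par I}

theorem al_half (c c' : RC p)
    (h : Fintype.card I ≤ (c.coreS ∩ c'.coreS).card + (4 * p.r + 20)) :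
    c.F ⊆ c'.F ∧ ∀ i, ∃ a, c.X i ⊆ c'.X a := by
  have hb := p.beta_ge
  have hD := p.D_ge
  set E := c.coreS ∩ c'.coreS with hEdef
  have hE : E ⊆ c.coreS := inter_subset_left
  have hE' : E ⊆ c'.coreS := inter_subset_right
  have hcard : p.D + 2 ≤ E.card := by omega
  refine ⟨fun v hv => mem_F_of_all c' hE' hcard (mem_all_of_F c hE hv), fun i => ?_⟩
  -- every vertex of a block lies in a block of the other copy
  have key : ∀ v ∈ c.X i, ∃ a, v ∈ c'.X a := by
    intro v hv
    have h1 := card_filter_core c hE h (p.N i)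
    rw [p.N_card] at h1
    have h2 : 0 < ((p.N i).filter (fun j => c.core j ∈ E)).card := by omega
    obtain ⟨l, hl⟩ := card_pos.mp h2
    rw [mem_filter] at hl
    have h3 := trace_mem c hv hl.1 hl.2
    rw [mem_filter] at h3
    obtain ⟨j, hj⟩ := (mem_coreS c').mp (hE' h3.1)
    have hF : v ∉ c'.F := by
      intro hF
      exact notF_of_X c hv (mem_F_of_all c hE hcard (mem_all_of_F c' hE' hF))
    exact mem_X_of_core c' (hj ▸ h3.2) hF
  obtain ⟨v, hv⟩ := X_nonempty c i
  obtain ⟨a, ha⟩ := key v hv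
  refine ⟨a, fun v2 hv2 => ?_⟩
  obtain ⟨b, hb'⟩ := key v2 hv2
  by_cases hab : a = b
  · rw [hab]; exact hb'
  exfalso
  -- computed in `c`
  have h1 : E.filter (fun e => v ∈ e) \ E.filter (fun e => v2 ∈ e) ⊆ {c.core i} := by
    intro e he
    rw [mem_sdiff] at he
    have h2 := trace_subset c hE hv he.1
    rw [mem_image] at h2
    obtain ⟨j, hj, rfl⟩ := h2
    rw [mem_insert] at hj
    rcases hj with rfl | hj
    · exact mem_singleton_self _
    · exact absurd (trace_mem c hv2 hj (mem_filter.mp he.1).1) he.2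
  -- computed in `c'`
  have hE'' : Fintype.card I ≤ E.card + (4 * p.r + 20) := h
  have h3 := card_filter_core c' hE' hE'' ((p.N a \ p.N b).erase b)
  have h4 : ((((p.N a \ p.N b).erase b).filter (fun j => c'.core j ∈ E)).image c'.core) ⊆
      E.filter (fun e => v ∈ e) \ E.filter (fun e => v2 ∈ e) := by
    intro e he
    rw [mem_image] at he
    obtain ⟨l, hl, rfl⟩ := he
    rw [mem_filter, mem_erase, mem_sdiff] at hl
    rw [mem_sdiff]
    refine ⟨trace_mem c' ha hl.1.2.1 hl.2, fun h5 => ?_⟩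
    have h6 := (mem_core_X c' hb').mp (mem_filter.mp h5).2
    rcases h6 with ⟨h7, -⟩ | h7
    · exact hl.1.1 h7.symm
    · exact hl.1.2.2 (p.N_symm _ _ h7)
  have h5 := (card_le_card h4).trans (card_le_card h1)
  rw [card_image_of_injective _ (core_inj c'), card_singleton] at h5
  have h6 := p.N_far a b hab
  have h7 := pred_card_le_card_erase (s := p.N a \ p.N b) (a := b)
  omega

/-- **DR-AL.** -/
theorem al : S_AL := by
  intro I _ _ p c c' h
  have h1 := al_half c c' h
  have h2 := al_half c' c (by rw [inter_comm]; exact h)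
  refine ⟨Subset.antisymm h1.1 h2.1, ?_⟩
  funext i
  obtain ⟨a, ha⟩ := h1.2 i
  obtain ⟨b, hb⟩ := h2.2 a
  obtain ⟨v, hv⟩ := X_nonempty c i
  have hib : i = b := X_uniq c hv (hb (ha hv))
  subst hib
  have heq : c.X i = c'.X a := Subset.antisymm ha hb
  have hx : p.x i = p.x a := by rw [← c.cX, ← c'.cX, heq]
  have := p.x_inj hx
  subst this
  exact heq

end Align

section Type'

variable {I : Type} [Fintype I] [DecidableEq I] {p : Par I}

theorem nonempty_I (p : Par I) : Nonempty I := by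
  rw [← Fintype.card_pos_iff]
  have := p.beta_ge
  omega

theorem mem_PP (c : RC p) {v : ℕ} : v ∈ c.PP ↔ ∃ i, v ∈ c.X i ∧ v ∉ c.T i := by
  simp [RC.PP]

theorem mem_QQ (c : RC p) {v : ℕ} : v ∈ c.QQ ↔ ∃ i, v ∈ c.T i := by
  simp [RC.QQ]

theorem mem_ga_X (c : RC p) {i : I} {v : ℕ} (h : v ∈ c.X i) : v ∈ c.ga ↔ v ∉ c.T i := by
  rw [RC.ga, mem_insert, mem_PP]
  constructor
  · rintro (rfl | ⟨j, h1, h2⟩)
    · exact absurd h (c.zX i)
    · have := X_uniq c h h1
      subst this
      exact h2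
  · intro h1
    exact Or.inr ⟨i, h, h1⟩

theorem mem_gb_X (c : RC p) {i : I} {v : ℕ} (h : v ∈ c.X i) : v ∈ c.gb ↔ v ∈ c.T i := by
  rw [RC.gb, mem_insert, mem_QQ]
  constructor
  · rintro (rfl | ⟨j, h1⟩)
    · exact absurd h (c.zX i)
    · have := X_uniq c h (c.TX j h1)
      subst this
      exact h1
  · intro h1
    exact Or.inr ⟨i, h1⟩

theorem F_not_ga (c : RC p) {v : ℕ} (h : v ∈ c.F) : v ∉ c.ga := by
  rw [RC.ga, mem_insert, mem_PP]
  rintro (rfl | ⟨j, h1, -⟩)
  · exact c.zF h
  · exact notF_of_X c h1 h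

theorem F_not_gb (c : RC p) {v : ℕ} (h : v ∈ c.F) : v ∉ c.gb := by
  rw [RC.gb, mem_insert, mem_QQ]
  rintro (rfl | ⟨j, h1⟩)
  · exact c.zF h
  · exact notF_of_X c (c.TX j h1) h

theorem T_eq_of {c c' : RC p} (h : c.SameFr c') (i : I)
    (hT : ∀ v ∈ c.X i, v ∈ c.T i ↔ v ∈ c'.T i) : c.T i = c'.T i := by
  ext v
  constructor
  · intro hv
    exact (hT v (c.TX i hv)).mp hv
  · intro hv
    have : v ∈ c.X i := by rw [h.2]; exact c'.TX i hv
    exact (hT v this).mpr hv

theorem z_ga {c c' : RC p} (h : c.SameFr c') (he : c.ga = c'.ga) : c.z = c'.z := by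
  have h1 : c.z ∈ c'.ga := by rw [← he]; exact mem_insert_self _ _
  rw [RC.ga, mem_insert, mem_PP] at h1
  rcases h1 with h1 | ⟨i, h1, -⟩
  · exact h1
  · rw [← h.2] at h1
    exact absurd h1 (c.zX i)

theorem z_gb {c c' : RC p} (h : c.SameFr c') (he : c.gb = c'.gb) : c.z = c'.z := by
  have h1 : c.z ∈ c'.gb := by rw [← he]; exact mem_insert_self _ _
  rw [RC.gb, mem_insert, mem_QQ] at h1
  rcases h1 with h1 | ⟨i, h1⟩
  · exact h1
  · have h2 := c'.TX i h1
    rw [← h.2] at h2
    exact absurd h2 (c.zX i)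

/-- **DR-TYPE.** -/
theorem type : S_TYPE := by
  intro I _ _ p c c' h
  refine ⟨?_, ?_, ?_, ?_, ?_, ?_⟩
  · intro he
    obtain ⟨i⟩ := nonempty_I p
    have h1 : c.X i \ c.T i = c'.T i := by
      ext v
      rw [mem_sdiff]
      constructor
      · rintro ⟨h1, h2⟩
        have h3 : v ∈ c.ga := (mem_ga_X c h1).mpr h2
        rw [he, mem_gb_X c' (by rw [← h.2]; exact h1)] at h3
        exact h3
      · intro h1
        have h2 : v ∈ c.X i := by rw [h.2]; exact c'.TX i h1
        have h3 : v ∈ c'.gb := (mem_gb_X c' (c'.TX i h1)).mpr h1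
        rw [← he, mem_ga_X c h2] at h3
        exact ⟨h2, h3⟩
    have h2 := congrArg card h1
    rw [card_sdiff_of_subset (c.TX i), c.cX, c.cT, c'.cT] at h2
    exact p.q_ne i h2.symm
  · intro he
    obtain ⟨j, hj⟩ := (mem_coreS c').mp he
    obtain ⟨v, hv⟩ := F_nonempty c
    have h1 : v ∈ c'.core j := mem_core_of_F c' (by rw [← h.1]; exact hv)
    rw [hj] at h1
    exact F_not_ga c hv h1
  · intro he
    obtain ⟨j, hj⟩ := (mem_coreS c').mp he
    obtain ⟨v, hv⟩ := F_nonempty c
    have h1 : v ∈ c'.core j := mem_core_of_F c' (by rw [← h.1]; exact hv)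
    rw [hj] at h1
    exact F_not_gb c hv h1
  · intro he
    refine RC.ext h.1 h.2 ?_ (z_ga h he)
    funext i
    refine T_eq_of h i fun v hv => ?_
    have h1 := mem_ga_X c hv
    have h2 := mem_ga_X c' (by rw [← h.2]; exact hv)
    rw [he, h2] at h1
    exact (not_iff_not.mp h1).symm
  · intro he
    refine RC.ext h.1 h.2 ?_ (z_gb h he)
    funext i
    refine T_eq_of h i fun v hv => ?_
    have h1 := mem_gb_X c hv
    have h2 := mem_gb_X c' (by rw [← h.2]; exact hv)
    rw [he, h2] at h1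
    exact h1.symm
  · intro i j he
    have hij := core_eq_index h he
    subst hij
    refine ⟨rfl, T_eq_of h i fun v hv => ?_⟩
    have h1 := mem_core_X c (j := i) hv
    have h2 := mem_core_X c' (j := i) (by rw [← h.2]; exact hv)
    rw [he, h2] at h1
    simp only [true_and, p.N_irr, or_false] at h1
    exact h1.symm

/-- **DR-SIM.** -/
theorem sim : S_SIM := by
  intro I _ _ p c c' h hc
  set Bad := univ.filter (fun i => ¬ c.core i ∈ c.coreS ∩ c'.coreS) with hBad
  have hBadc : Bad.card ≤ 6 * p.r + 30 := by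
    have h1 := card_filter_core c (inter_subset_left) hc univ
    have h5 : Bad = univ \ univ.filter (fun i => c.core i ∈ c.coreS ∩ c'.coreS) := by
      rw [hBad, filter_not]
    rw [h5, card_sdiff_of_subset (filter_subset _ _)]
    omega
  have hgood : ∀ i, i ∉ Bad → c.T i = c'.T i := by
    intro i hi
    rw [hBad, mem_filter] at hi
    push Not at hi
    have h1 := (mem_inter.mp (hi (mem_univ i))).2
    obtain ⟨j, hj⟩ := (mem_coreS c').mp h1
    exact ((type I p c c' h).2.2.2.2.2 i j hj.symm).2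
  constructor
  · have h1 : c.ga \ c'.ga ⊆ insert c.z (Bad.biUnion fun i => c.X i \ c.T i) := by
      intro v hv
      rw [mem_sdiff] at hv
      rw [mem_insert, mem_biUnion]
      have h2 := hv.1
      rw [RC.ga, mem_insert, mem_PP] at h2
      rcases h2 with h2 | ⟨i, h2, h3⟩
      · exact Or.inl h2
      · refine Or.inr ⟨i, ?_, mem_sdiff.mpr ⟨h2, h3⟩⟩
        by_contra hi
        apply hv.2
        rw [mem_ga_X c' (by rw [← h.2]; exact h2), ← hgood i hi]
        exact h3
    refine (card_le_card h1).trans ((card_insert_le _ _).trans ?_)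
    have h2 : (Bad.biUnion fun i => c.X i \ c.T i).card ≤ Bad.card * p.hh := by
      refine card_biUnion_le_card_mul _ _ _ fun i _ => ?_
      rw [card_sdiff_of_subset (c.TX i), c.cX, c.cT]
      exact p.p_hh i
    have h3 := Nat.mul_le_mul_right p.hh hBadc
    omega
  · have h1 : c.gb \ c'.gb ⊆ insert c.z (Bad.biUnion fun i => c.T i) := by
      intro v hv
      rw [mem_sdiff] at hv
      rw [mem_insert, mem_biUnion]
      have h2 := hv.1
      rw [RC.gb, mem_insert, mem_QQ] at h2
      rcases h2 with h2 | ⟨i, h3⟩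
      · exact Or.inl h2
      · refine Or.inr ⟨i, ?_, h3⟩
        by_contra hi
        apply hv.2
        rw [mem_gb_X c' (by rw [← h.2]; exact c.TX i h3), ← hgood i hi]
        exact h3
    refine (card_le_card h1).trans ((card_insert_le _ _).trans ?_)
    have h2 : (Bad.biUnion fun i => c.T i).card ≤ Bad.card * p.hh := by
      refine card_biUnion_le_card_mul _ _ _ fun i _ => ?_
      rw [c.cT]
      exact p.q_hh i
    have h3 := Nat.mul_le_mul_right p.hh hBadc
    omega

/-- **DR-COV.** -/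
theorem cov : S_COV := by
  intro I _ _ p c
  have hb := p.beta_ge
  have hD := p.D_ge
  refine ⟨fun G hG v => ⟨fun hv => mem_F_of_all c inter_subset_left hG hv,
    fun hv => mem_all_of_F c inter_subset_left hv⟩, fun N0 hP v hv => ?_⟩
  unfold Pot at hP
  rw [mem_union] at hv
  rcases hv with hv | hv
  · have h1 : 0 < (c.coreS ∩ N0).card := by omega
    obtain ⟨e, he⟩ := card_pos.mp h1
    exact ⟨e, (mem_inter.mp he).2, mem_all_of_F c inter_subset_left hv e he⟩
  · rw [RC.U, mem_biUnion] at hv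
    obtain ⟨i, -, hi⟩ := hv
    have h1 := card_filter_core c inter_subset_left hP (p.N i)
    rw [p.N_card] at h1
    have h2 : 0 < ((p.N i).filter (fun j => c.core j ∈ c.coreS ∩ N0)).card := by omega
    obtain ⟨l, hl⟩ := card_pos.mp h2
    rw [mem_filter] at hl
    have h3 := trace_mem c hi hl.1 hl.2
    rw [mem_filter] at h3
    exact ⟨_, (mem_inter.mp h3.1).2, h3.2⟩

end Type'

end Pool.Agent.W390.DR
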