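import Pool.Agent.W390.DR.Al

/-!
DR-DEL, DR-SPLIT: distinct edges of one copy differ a lot; the splitting choice; kernels of
potential copies.
-/

set_option autoImplicit false

namespace Pool.Agent.W390.DR

open Pool.Agent.W317.DR Finset

section Del

variable {I : Type} [Fintype I] [DecidableEq I] {p : Par I}

theorem big_of_blocks (c : RC p) {d : Finset ℕ} (Z : Finset I) (A : I → Finset ℕ) (m : ℕ)
    (hA : ∀ i, A i ⊆ c.X i) (hm : ∀ i ∈ Z, m ≤ (A i).card) (hd : ∀ i ∈ Z, A i ⊆ d) :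
    Z.card * m ≤ d.card := by
  have h1 : Z.biUnion A ⊆ d := biUnion_subset.mpr hd
  have h2 : (Z.biUnion A).card = ∑ i ∈ Z, (A i).card := by
    refine card_biUnion fun i _ j _ hij => ?_
    exact disjoint_of_subset_left (hA i) (disjoint_of_subset_right (hA j) (c.XX i j hij))
  calc Z.card * m = ∑ _i ∈ Z, m := by rw [sum_const, smul_eq_mul]
    _ ≤ ∑ i ∈ Z, (A i).card := sum_le_sum hm
    _ = (Z.biUnion A).card := h2.symm
    _ ≤ d.card := card_le_card h1

theorem bigX (c : RC p) {d : Finset ℕ} (Z : Finset I) (hZ : 6 * p.r + 31 ≤ Z.card)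
    (hd : ∀ i ∈ Z, c.X i ⊆ d) : (6 * p.r + 30) * p.hh + 1 < d.card := by
  have h1 := big_of_blocks c Z c.X (p.hh + 1) (fun i => Subset.rfl)
    (fun i _ => by rw [c.cX]; exact p.x_hh i) hd
  have h2 : (6 * p.r + 31) * (p.hh + 1) ≤ Z.card * (p.hh + 1) := Nat.mul_le_mul_right _ hZ
  have h3 : (6 * p.r + 31) * (p.hh + 1) = (6 * p.r + 30) * p.hh + p.hh + (6 * p.r + 31) := by
    ring
  omega

theorem num_hl (p : Par I) {m : ℕ} (hm : 12 * p.r + 99 ≤ m) :
    (6 * p.r + 30) * p.hh + 1 < m * p.hl := by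
  have h1 : (6 * p.r + 30) * p.hh ≤ (6 * p.r + 30) * (2 * p.hl) :=
    Nat.mul_le_mul_left _ p.hh_hl
  have h2 : (12 * p.r + 99) * p.hl ≤ m * p.hl := Nat.mul_le_mul_right _ hm
  have h3 : (12 * p.r + 99) * p.hl = (6 * p.r + 30) * (2 * p.hl) + 39 * p.hl := by ring
  have h4 := p.hl_ge
  have h5 : 0 < 2 ^ (Fintype.card I + 3) := by positivity
  omega

theorem bigP (c : RC p) {d : Finset ℕ} (Z : Finset I) (hZ : 12 * p.r + 99 ≤ Z.card)
    (hd : ∀ i ∈ Z, c.X i \ c.T i ⊆ d) : (6 * p.r + 30) * p.hh + 1 < d.card := by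
  have h1 := big_of_blocks c Z (fun i => c.X i \ c.T i) p.hl (fun i => sdiff_subset)
    (fun i _ => by rw [card_sdiff_of_subset (c.TX i), c.cX, c.cT]; exact p.p_hl i) hd
  exact lt_of_lt_of_le (num_hl p hZ) h1

theorem bigQ (c : RC p) {d : Finset ℕ} (Z : Finset I) (hZ : 12 * p.r + 99 ≤ Z.card)
    (hd : ∀ i ∈ Z, c.T i ⊆ d) : (6 * p.r + 30) * p.hh + 1 < d.card := by
  have h1 := big_of_blocks c Z c.T p.hl (fun i => c.TX i)
    (fun i _ => by rw [c.cT]; exact p.q_hl i) hd
  exact lt_of_lt_of_le (num_hl p hZ) h1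

theorem bigF (c : RC p) {d : Finset ℕ} (hd : c.F ⊆ d) :
    (6 * p.r + 30) * p.hh + 1 < d.card := by
  have h1 := card_le_card hd
  rw [c.cF] at h1
  exact lt_of_lt_of_le p.nF_gt h1

theorem co_card (p : Par I) (i : I) :
    12 * p.r + 99 ≤ ((univ : Finset I) \ insert i (p.N i)).card := by
  have h1 : (insert i (p.N i)).card ≤ p.D + 1 := by
    refine (card_insert_le _ _).trans ?_
    rw [p.N_card]
  have h2 := le_card_sdiff (insert i (p.N i)) (univ : Finset I)
  rw [card_univ] at h2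
  have h3 := p.beta_ge
  omega

theorem univ_card (p : Par I) : 12 * p.r + 99 ≤ (univ : Finset I).card := by
  rw [card_univ]
  have h3 := p.beta_ge
  omega

theorem X_not_flex (h : HC p) {i : I} {v : ℕ} (hv : v ∈ h.X i) (s : Fin p.r) :
    v ∉ h.flex s := by
  rw [HC.flex, mem_insert, mem_union, mem_sdiff]
  rintro (rfl | h1 | h1)
  · exact h.zX i hv
  · exact notF_of_X h.toRC hv h1
  · exact disjoint_left.mp (h.WX i) h1.1 hv

theorem W_not_core (h : HC p) {v : ℕ} (hv : v ∈ h.W) (j : I) : v ∉ h.toRC.core j := by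
  intro hc
  rcases (mem_core h.toRC).mp hc with h1 | h1 | ⟨l, -, h1⟩
  · exact disjoint_left.mp h.WF hv h1
  · exact disjoint_left.mp (h.WX j) hv (h.TX j h1)
  · exact disjoint_left.mp (h.WX l) hv h1

theorem F_mem_flex (h : HC p) {v : ℕ} (hv : v ∈ h.F) (s : Fin p.r) : v ∈ h.flex s := by
  rw [HC.flex, mem_insert, mem_union]
  exact Or.inr (Or.inl hv)

theorem z_not_T (c : RC p) (i : I) : c.z ∉ c.T i := fun h => c.zX i (c.TX i h)

/-- **DR-DEL.** -/
theorem del : S_DEL := by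
  intro I _ _ p h e he e' he' hne
  have hcases : ∀ f ∈ h.hedges, (∃ j, f = h.toRC.core j) ∨ f = h.toRC.ga ∨ f = h.toRC.gb ∨
      ∃ s, f = h.flex s := by
    intro f hf
    rw [HC.hedges, mem_union, RC.edges, mem_insert, mem_insert, mem_image, mem_coreS] at hf
    rcases hf with (h1 | h1 | ⟨j, h1⟩) | ⟨s, -, h1⟩
    · exact Or.inr (Or.inl h1)
    · exact Or.inr (Or.inr (Or.inl h1))
    · exact Or.inl ⟨j, h1.symm⟩
    · exact Or.inr (Or.inr (Or.inr ⟨s, h1.symm⟩))
  rcases hcases e he with ⟨i, rfl⟩ | rfl | rfl | ⟨s, rfl⟩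
  · rcases hcases e' he' with ⟨j, rfl⟩ | rfl | rfl | ⟨t, rfl⟩
    · have hij : i ≠ j := fun h1 => hne (by rw [h1])
      refine bigX h.toRC ((p.N i \ p.N j).erase j) ?_ fun l hl v hv => ?_
      · have h1 := p.N_far i j hij
        have h2 := pred_card_le_card_erase (s := p.N i \ p.N j) (a := j)
        omega
      · rw [mem_erase, mem_sdiff] at hl
        rw [mem_sdiff]
        refine ⟨(mem_core_X h.toRC hv).mpr (Or.inr (p.N_symm _ _ (p.N_symm _ _ hl.2.1))), ?_⟩
        intro h1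
        rcases (mem_core_X h.toRC hv).mp h1 with ⟨h2, -⟩ | h2
        · exact hl.1 h2
        · exact hl.2.2 h2
    · refine bigF h.toRC fun v hv => ?_
      exact mem_sdiff.mpr ⟨mem_core_of_F h.toRC hv, F_not_ga h.toRC hv⟩
    · refine bigF h.toRC fun v hv => ?_
      exact mem_sdiff.mpr ⟨mem_core_of_F h.toRC hv, F_not_gb h.toRC hv⟩
    · refine bigX h.toRC (p.N i) ?_ fun l hl v hv => ?_
      · rw [p.N_card]
        have := p.D_ge
        omega
      · exact mem_sdiff.mpr ⟨(mem_core_X h.toRC hv).mpr (Or.inr hl), X_not_flex h hv t⟩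
  · rcases hcases e' he' with ⟨j, rfl⟩ | rfl | rfl | ⟨t, rfl⟩
    · refine bigP h.toRC (univ \ insert j (p.N j)) (co_card p j) fun l hl v hv => ?_
      rw [mem_sdiff] at hv
      rw [mem_sdiff, mem_insert] at hl
      push Not at hl
      rw [mem_sdiff]
      refine ⟨(mem_ga_X h.toRC hv.1).mpr hv.2, fun h1 => ?_⟩
      rcases (mem_core_X h.toRC hv.1).mp h1 with ⟨h2, -⟩ | h2
      · exact hl.2.1 h2
      · exact hl.2.2 h2
    · exact absurd rfl hne
    · refine bigP h.toRC univ (univ_card p) fun l _ v hv => ?_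
      rw [mem_sdiff] at hv
      exact mem_sdiff.mpr ⟨(mem_ga_X h.toRC hv.1).mpr hv.2,
        fun h1 => hv.2 ((mem_gb_X h.toRC hv.1).mp h1)⟩
    · refine bigP h.toRC univ (univ_card p) fun l _ v hv => ?_
      rw [mem_sdiff] at hv
      exact mem_sdiff.mpr ⟨(mem_ga_X h.toRC hv.1).mpr hv.2, X_not_flex h hv.1 t⟩
  · rcases hcases e' he' with ⟨j, rfl⟩ | rfl | rfl | ⟨t, rfl⟩
    · refine bigQ h.toRC (univ \ insert j (p.N j)) (co_card p j) fun l hl v hv => ?_
      have hvX := h.TX l hv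
      rw [mem_sdiff, mem_insert] at hl
      push Not at hl
      rw [mem_sdiff]
      refine ⟨(mem_gb_X h.toRC hvX).mpr hv, fun h1 => ?_⟩
      rcases (mem_core_X h.toRC hvX).mp h1 with ⟨h2, -⟩ | h2
      · exact hl.2.1 h2
      · exact hl.2.2 h2
    · refine bigQ h.toRC univ (univ_card p) fun l _ v hv => ?_
      have hvX := h.TX l hv
      exact mem_sdiff.mpr ⟨(mem_gb_X h.toRC hvX).mpr hv,
        fun h1 => (mem_ga_X h.toRC hvX).mp h1 hv⟩
    · exact absurd rfl hne
    · refine bigQ h.toRC univ (univ_card p) fun l _ v hv => ?_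
      have hvX := h.TX l hv
      exact mem_sdiff.mpr ⟨(mem_gb_X h.toRC hvX).mpr hv, X_not_flex h hvX t⟩
  · rcases hcases e' he' with ⟨j, rfl⟩ | rfl | rfl | ⟨t, rfl⟩
    · have h1 : h.W \ h.S s ⊆ h.flex s \ h.toRC.core j := by
        intro v hv
        rw [mem_sdiff] at hv
        rw [mem_sdiff]
        refine ⟨?_, W_not_core h hv.1 j⟩
        rw [HC.flex, mem_insert, mem_union, mem_sdiff]
        exact Or.inr (Or.inr hv)
      have h2 := card_le_card h1
      rw [card_sdiff_of_subset (h.SW s), h.cW, h.cS] at h2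
      have h3 := p.w_gt
      have h4 : 2 * p.w ≤ p.r * p.w := Nat.mul_le_mul_right _ p.r_ge
      omega
    · refine bigF h.toRC fun v hv => ?_
      exact mem_sdiff.mpr ⟨F_mem_flex h hv s, F_not_ga h.toRC hv⟩
    · refine bigF h.toRC fun v hv => ?_
      exact mem_sdiff.mpr ⟨F_mem_flex h hv s, F_not_gb h.toRC hv⟩
    · have hst : s ≠ t := fun h1 => hne (by rw [h1])
      have h1 : h.S t ⊆ h.flex s \ h.flex t := by
        intro v hv
        have hvW := h.SW t hv
        rw [mem_sdiff, HC.flex, HC.flex, mem_insert, mem_union, mem_sdiff, mem_insert, mem_union,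
          mem_sdiff]
        refine ⟨Or.inr (Or.inr ⟨hvW, fun h2 => disjoint_left.mp (h.SS s t hst) h2 hv⟩), ?_⟩
        rintro (rfl | h2 | h2)
        · exact h.zW hvW
        · exact disjoint_left.mp h.WF hvW h2
        · exact h2.2 hv
      have h2 := card_le_card h1
      rw [h.cS] at h2
      exact lt_of_lt_of_le p.w_gt h2

end Del

section Splitting

theorem greedy {ι : Type} (A : ι → Finset ℕ) (X : Finset ℕ) (N : ℕ) (s : Finset ι) :
    s.card ≤ N → (∀ i ∈ s, A i ⊆ X) → (∀ i ∈ s, 2 * N ≤ (A i).card) →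
    ∃ P1 P2 : Finset ℕ, P1 ⊆ X ∧ P2 ⊆ X ∧ Disjoint P1 P2 ∧ P1.card ≤ s.card ∧
      P2.card ≤ s.card ∧ ∀ i ∈ s, (∃ u ∈ P1, u ∈ A i) ∧ (∃ v ∈ P2, v ∈ A i) := by
  classical
  induction s using Finset.induction_on with
  | empty =>
    intro _ _ _
    exact ⟨∅, ∅, by simp, by simp, by simp, by simp, by simp, by simp⟩
  | insert a s ha ih =>
    intro hN hX hA
    rw [card_insert_of_notMem ha] at hN
    obtain ⟨P1, P2, h1, h2, h3, h4, h5, h6⟩ := ih (by omega)
      (fun i hi => hX i (mem_insert_of_mem hi)) (fun i hi => hA i (mem_insert_of_mem hi))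
    have h7 : 2 ≤ (A a \ (P1 ∪ P2)).card := by
      have h8 := le_card_sdiff (P1 ∪ P2) (A a)
      have h9 := card_union_le P1 P2
      have h10 := hA a (mem_insert_self _ _)
      omega
    obtain ⟨u, hu, v, hv, huv⟩ := one_lt_card.mp (show 1 < (A a \ (P1 ∪ P2)).card by omega)
    rw [mem_sdiff, mem_union] at hu hv
    push Not at hu hv
    refine ⟨insert u P1, insert v P2, ?_, ?_, ?_, ?_, ?_, ?_⟩
    · exact insert_subset (hX a (mem_insert_self _ _) hu.1) h1
    · exact insert_subset (hX a (mem_insert_self _ _) hv.1) h2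
    · rw [disjoint_insert_left, disjoint_insert_right, mem_insert]
      push Not
      exact ⟨⟨huv, hu.2.2⟩, hv.2.1, h3⟩
    · rw [card_insert_of_notMem ha]
      exact (card_insert_le _ _).trans (by omega)
    · rw [card_insert_of_notMem ha]
      exact (card_insert_le _ _).trans (by omega)
    · intro i hi
      rcases mem_insert.mp hi with rfl | hi
      · exact ⟨⟨u, mem_insert_self _ _, hu.1⟩, ⟨v, mem_insert_self _ _, hv.1⟩⟩
      · obtain ⟨⟨u', hu1, hu2⟩, ⟨v', hv1, hv2⟩⟩ := h6 i hi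
        exact ⟨⟨u', mem_insert_of_mem hu1, hu2⟩, ⟨v', mem_insert_of_mem hv1, hv2⟩⟩

/-- **DR-SPLIT.** -/
theorem split : S_SPLIT := by
  classical
  intro b big q X G Forb hG hForb hbig hq hX
  set A : Finset (Finset ℕ) → Finset ℕ := fun E => X.filter (fun v => ∀ e ∈ E, v ∈ e) with hA
  set s := G.powerset.filter (fun E => big ≤ (A E).card) with hs
  have hpow : (2 : ℕ) ^ (b + 3) = 8 * 2 ^ b := by ring
  have hsc : s.card ≤ 2 ^ b := by
    refine (card_filter_le _ _).trans ?_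
    rw [card_powerset]
    exact Nat.pow_le_pow_right (by norm_num) hG
  have hpos : 0 < 2 ^ b := Nat.pos_of_ne_zero (by positivity)
  obtain ⟨P1, P2, h1, h2, h3, h4, h5, h6⟩ := greedy A X (2 ^ b) s hsc
    (fun E _ => filter_subset _ _) (fun E hE => by
      have := (mem_filter.mp hE).2
      omega)
  have hM : X.card ≤ (X \ (P1 ∪ P2)).card + P1.card + P2.card := by
    have h8 := le_card_sdiff (P1 ∪ P2) X
    have h9 := card_union_le P1 P2
    omega
  obtain ⟨M0, hM0, hM0c⟩ := exists_subset_card_eq (s := X \ (P1 ∪ P2)) (n := q - P1.card - 1)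
    (by omega)
  have hR : Forb.card < ((X \ (P1 ∪ P2)) \ M0).card := by
    have h8 := le_card_sdiff M0 (X \ (P1 ∪ P2))
    omega
  have hM0P : ∀ v ∈ M0, v ∈ X ∧ v ∉ P1 ∧ v ∉ P2 := by
    intro v hv
    have := hM0 hv
    rw [mem_sdiff, mem_union] at this
    push Not at this
    exact this
  have hRm : ∀ v ∈ (X \ (P1 ∪ P2)) \ M0, v ∈ X ∧ v ∉ P1 ∧ v ∉ P2 ∧ v ∉ M0 := by
    intro v hv
    rw [mem_sdiff, mem_sdiff, mem_union] at hv
    push Not at hv
    exact ⟨hv.1.1, hv.1.2.1, hv.1.2.2, hv.2⟩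
  have hinj : Set.InjOn (fun m => insert m (P1 ∪ M0)) ((X \ (P1 ∪ P2)) \ M0 : Finset ℕ) := by
    intro m hm m' hm' he
    have hm1 := hRm m (mem_coe.mp hm)
    have he' : insert m (P1 ∪ M0) = insert m' (P1 ∪ M0) := he
    have : m ∈ insert m' (P1 ∪ M0) := he' ▸ mem_insert_self _ _
    rw [mem_insert, mem_union] at this
    rcases this with h | h | h
    · exact h
    · exact absurd h hm1.2.1
    · exact absurd h hm1.2.2.2
  have hcard : Forb.card < (((X \ (P1 ∪ P2)) \ M0).image (fun m => insert m (P1 ∪ M0))).card := by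
    rw [card_image_of_injOn hinj]
    exact hR
  obtain ⟨T, hT, hTF⟩ := exists_mem_notMem_of_card_lt_card hcard
  obtain ⟨m, hm, rfl⟩ := mem_image.mp hT
  have hm1 := hRm m hm
  refine ⟨insert m (P1 ∪ M0), ?_, ?_, hTF, ?_⟩
  · refine insert_subset hm1.1 (union_subset h1 fun v hv => (hM0P v hv).1)
  · have hd : Disjoint P1 M0 := disjoint_right.mpr fun v hv => (hM0P v hv).2.1
    rw [card_insert_of_notMem, card_union_of_disjoint hd, hM0c]
    · omega
    · rw [mem_union]
      push Not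
      exact ⟨hm1.2.1, hm1.2.2.2⟩
  · intro E hE hEne hEb
    have hEs : E ∈ s := mem_filter.mpr ⟨mem_powerset.mpr hE, hEb⟩
    obtain ⟨⟨u, hu1, hu2⟩, ⟨v, hv1, hv2⟩⟩ := h6 E hEs
    refine ⟨⟨u, mem_insert_of_mem (mem_union_left _ hu1), (mem_filter.mp hu2).2⟩,
      ⟨v, ?_, (mem_filter.mp hv2).2⟩⟩
    rw [mem_sdiff, mem_insert, mem_union]
    refine ⟨h2 hv1, ?_⟩
    rintro (rfl | h | h)
    · exact hm1.2.2.1 hv1
    · exact disjoint_left.mp h3 h hv1
    · exact (hM0P v h).2.2 hv1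

variable {I : Type} [Fintype I] [DecidableEq I] {p : Par I}

omit [DecidableEq I] in
theorem ix_card (K : ℕ) : ((univ : Finset I).filter (fun i => ix i < K)).card ≤ K := by
  have h1 : ((univ : Finset I).filter (fun i => ix i < K)).image ix ⊆ range K := by
    intro k hk
    obtain ⟨i, hi, rfl⟩ := mem_image.mp hk
    exact mem_range.mpr (mem_filter.mp hi).2
  have h2 : Function.Injective (ix : I → ℕ) := by
    intro i j hij
    exact (Fintype.equivFin I).injective (Fin.ext hij)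
  have h3 := card_le_card h1
  rw [card_image_of_injective _ h2, card_range] at h3
  exact h3

theorem fprop_half (c : RC p) (Ach : I → Finset (Finset ℕ)) (N0 : Finset (Finset ℕ))
    (hN : N0.card ≤ Fintype.card I + 1) (hAch : ∀ i, Ach i ⊆ N0)
    (hAc : ∀ i, (Ach i).card = ix i + 1) (S : I → Finset ℕ) (hS : ∀ i, S i ⊆ c.X i)
    (hSc : ∀ i, (S i).card ≤ p.hh)
    (hsp : ∀ i, ∀ E ⊆ Ach i, E.Nonempty →
      p.big ≤ ((c.X i).filter (fun v => ∀ e ∈ E, v ∈ e)).card →
      ∃ v ∈ c.X i \ S i, ∀ e ∈ E, v ∈ e)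
    (c' : RC p) (hP : Pot p N0 c') : ¬ c'.F ⊆ univ.biUnion S := by
  intro hF
  unfold Pot at hP
  have huniq : ∀ i v, v ∈ c.X i → v ∈ c'.F → v ∈ S i := by
    intro i v hv hvF
    have := hF hvF
    rw [mem_biUnion] at this
    obtain ⟨j, -, hj⟩ := this
    have hij := X_uniq c hv (hS j hj)
    subst hij
    exact hj
  have hlate : ∀ i, p.D + p.r + 8 ≤ ix i → (c'.F ∩ c.X i).card ≤ p.big := by
    intro i hi
    by_contra hlt
    push Not at hlt
    have hEc : p.D + 2 ≤ (c'.coreS ∩ Ach i).card := by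
      have h1 : (c'.coreS ∩ N0) ⊆ (c'.coreS ∩ Ach i) ∪ (N0 \ Ach i) := by
        intro e he
        rw [mem_inter] at he
        rw [mem_union, mem_inter, mem_sdiff]
        by_cases h : e ∈ Ach i
        · exact Or.inl ⟨he.1, h⟩
        · exact Or.inr ⟨he.2, h⟩
      have h2 := (card_le_card h1).trans (card_union_le _ _)
      rw [card_sdiff_of_subset (hAch i), hAc] at h2
      have h3 := card_le_card (hAch i)
      rw [hAc] at h3
      omega
    have hcov := (cov I p c').1 (Ach i) hEc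
    obtain ⟨v, hv, hv2⟩ := hsp i (c'.coreS ∩ Ach i) inter_subset_right
      (card_pos.mp (by omega)) (by
        refine hlt.le.trans (card_le_card ?_)
        intro v hv
        rw [mem_inter] at hv
        exact mem_filter.mpr ⟨hv.2, (hcov v).mpr hv.1⟩)
    rw [mem_sdiff] at hv
    exact hv.2 (huniq i v hv.1 ((hcov v).mp hv2))
  have hearly : ∀ i, (c'.F ∩ c.X i).card ≤ p.hh := by
    intro i
    refine (card_le_card ?_).trans (hSc i)
    intro v hv
    rw [mem_inter] at hv
    exact huniq i v hv.2 hv.1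
  have hsub : c'.F ⊆ univ.biUnion fun i => c'.F ∩ c.X i := by
    intro v hv
    have := hF hv
    rw [mem_biUnion] at this ⊢
    obtain ⟨j, hj, hj2⟩ := this
    exact ⟨j, hj, mem_inter.mpr ⟨hv, hS j hj2⟩⟩
  have h1 := (card_le_card hsub).trans card_biUnion_le
  rw [c'.cF, ← sum_filter_add_sum_filter_not univ (fun i => ix i < p.D + p.r + 8)] at h1
  have h2 : ∑ i ∈ univ.filter (fun i => ix i < p.D + p.r + 8), (c'.F ∩ c.X i).card ≤
      (p.D + p.r + 8) * p.hh := by
    refine (sum_le_card_nsmul _ _ p.hh fun i _ => hearly i).trans ?_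
    rw [smul_eq_mul]
    exact Nat.mul_le_mul_right _ (ix_card _)
  have h3 : ∑ i ∈ univ.filter (fun i => ¬ ix i < p.D + p.r + 8), (c'.F ∩ c.X i).card ≤
      Fintype.card I * p.big := by
    refine (sum_le_card_nsmul _ _ p.big fun i hi => hlate i ?_).trans ?_
    · have := (mem_filter.mp hi).2
      omega
    · rw [smul_eq_mul]
      exact Nat.mul_le_mul_right _ (card_le_univ _)
  have h4 := p.early
  omega

/-- **DR-FPROP.** -/
theorem fprop : S_FPROP := by
  intro I _ _ p c Ach N0 hN hAch hAc hsp c' hP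
  constructor
  · have h1 := fprop_half c Ach N0 hN hAch hAc c.T c.TX
      (fun i => by rw [c.cT]; exact p.q_hh i)
      (fun i E hE hne hb => (hsp i E hE hne hb).2) c' hP
    exact h1
  · have h1 := fprop_half c Ach N0 hN hAch hAc (fun i => c.X i \ c.T i)
      (fun i => sdiff_subset)
      (fun i => by rw [card_sdiff_of_subset (c.TX i), c.cX, c.cT]; exact p.p_hh i)
      (fun i E hE hne hb => by
        obtain ⟨v, hv, hv2⟩ := (hsp i E hE hne hb).1
        refine ⟨v, ?_, hv2⟩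
        rw [mem_sdiff, mem_sdiff]
        exact ⟨c.TX i hv, fun h => h.2 hv⟩) c' hP
    exact h1

end Splitting

end Pool.Agent.W390.DR
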